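import Pool.Agent.N54.MR.Small
import Pool.Agent.Y961.JR.ScaledJ

set_option autoImplicit false

/-! Record prime gaps around the coordinates of the rational linear images of vectors of real sequences
with small exponential sums. -/

namespace Pool.Agent.N54.MR

open Finset Filter
open Pool.Agent.H469R2.NK (e norm_e e_add)
open Pool.Agent.W147.PS (ff)
open Pool.Agent.Y961.JR (crit_scaledJ)

variable {r : ℕ}

/-- `P` holds for at least `N ^ (1 - ε)` integers of `(N, 2 N]`, for every `ε > 0` and all large `N` -/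
def ManyP (P : ℕ → Prop) [DecidablePred P] : Prop :=
  ∀ ε : ℝ, 0 < ε → ∃ N₀ : ℕ, ∀ N : ℕ, N₀ ≤ N →
    (N : ℝ) ^ (1 - ε) ≤ (((Finset.Ioc N (2 * N)).filter P).card : ℝ)

lemma phase_eq (T : Matrix (Fin r) (Fin r) ℤ) (b q : ℕ) (hb : 1 ≤ b) (hq : 1 ≤ q) (β : Fin r → ℝ) (h : Fin r → ℤ)
    (x : Fin r → ℝ) (c n : ℝ) :
    ∑ i, (h i : ℝ) * (((∑ j, (T i j : ℝ) * x j) / b + β i) / q) =
      (∑ j, ((Matrix.vecMul h T j : ℤ) : ℝ) * (x j / ((q * b : ℕ) : ℝ)) + ((0 : ℤ) : ℝ) * (n / ((q * b : ℕ) : ℝ))) +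
        ∑ i, (h i : ℝ) * (β i / q) := by
  have hb0 : (b : ℝ) ≠ 0 := by positivity
  have hq0 : (q : ℝ) ≠ 0 := by positivity
  have h1 : ∀ j, ((Matrix.vecMul h T j : ℤ) : ℝ) = ∑ i, (h i : ℝ) * T i j := by
    intro j
    rw [Matrix.vecMul, dotProduct]
    push_cast
    rfl
  simp only [h1]
  have h2 : ∑ j, (∑ i, (h i : ℝ) * T i j) * (x j / ((q * b : ℕ) : ℝ)) =
      ∑ i, (h i : ℝ) * ((∑ j, (T i j : ℝ) * x j) / b / q) := by
    simp only [sum_mul, mul_sum, sum_div]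
    rw [sum_comm]
    refine sum_congr rfl fun i _ => sum_congr rfl fun j _ => ?_
    push_cast
    field_simp
  rw [h2]
  push_cast
  rw [zero_mul, add_zero, ← sum_add_distrib]
  refine sum_congr rfl fun i _ => ?_
  ring

lemma vec_bound (T : Matrix (Fin r) (Fin r) ℤ) (h : Fin r → ℤ) {A B : ℝ} (hA : 0 ≤ A)
    (hT : ∀ i j, |(T i j : ℝ)| ≤ B) (hh : ∀ i, |(h i : ℝ)| ≤ A) (j : Fin r) :
    |((Matrix.vecMul h T j : ℤ) : ℝ)| ≤ r * (A * B) := by
  rw [Matrix.vecMul, dotProduct]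
  push_cast
  refine (abs_sum_le_sum_abs _ _).trans ?_
  calc ∑ i, |(h i : ℝ) * (T i j : ℝ)| ≤ ∑ _i : Fin r, A * B := by
        refine sum_le_sum fun i _ => ?_
        rw [abs_mul]
        exact mul_le_mul (hh i) (hT i j) (abs_nonneg _) hA
    _ = r * (A * B) := by rw [sum_const, card_univ, Fintype.card_fin, nsmul_eq_mul]

theorem rec_of (hr : 1 ≤ r) (η : ℝ) (hη : 0 < η) (hη1 : η ≤ 1) (ε : ℝ) (hε : 0 < ε) (hε1 : ε ≤ 1) :
    ∃ κ θ : ℝ, 0 < κ ∧ 0 < θ ∧ ∀ (P : ℕ → Prop) [DecidablePred P], ManyP P →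
      ∀ x : ℕ → Fin r → ℝ, SmallL η P x →
      ∃ N₀ : ℕ, ∀ N : ℕ, N₀ ≤ N → ∀ (T : Matrix (Fin r) (Fin r) ℤ) (b : ℕ) (β : Fin r → ℝ),
        T.det ≠ 0 → (∀ i j, |(T i j : ℝ)| ≤ (N : ℝ) ^ θ) → 1 ≤ b → (b : ℝ) ≤ (N : ℝ) ^ θ →
        (∀ n : ℕ, P n → N < n → n ≤ 2 * N → ∀ i, (N : ℝ) ^ ε ≤ (∑ j, (T i j : ℝ) * x n j) / b + β i) →
        ∃ G : Finset ℕ, G ⊆ (Finset.Ioc N (2 * N)).filter P ∧ (N : ℝ) ^ (1 - ε) ≤ (G.card : ℝ) ∧
          ∀ n ∈ G, ∀ i, ∀ q : ℕ, q.Prime →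
            κ * ff N < |(q : ℝ) - ((∑ j, (T i j : ℝ) * x n j) / b + β i)| := by
  classical
  set δ : ℝ := min η ε with hδ
  have hδ0 : 0 < δ := lt_min hη hε
  have hδη : δ ≤ η := min_le_left _ _
  have hδε : δ ≤ ε := min_le_right _ _
  have hδ1 : δ ≤ 1 := hδε.trans hε1
  obtain ⟨κ, hκ, hcr⟩ := crit_scaledJ r hr (δ / 8) (by positivity) (by linarith)
  obtain ⟨X₀, hX₀⟩ := eventually_atTop.1 hcr
  refine ⟨κ, δ / 8, hκ, by positivity, fun P _ hP x hx => ?_⟩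
  obtain ⟨N₁, hN₁⟩ := hP (δ / 8) (by positivity)
  obtain ⟨N₂, hN₂⟩ := hx
  have hev : ∀ᶠ N : ℕ in atTop, (r : ℝ) + 3 ≤ (N : ℝ) ^ (δ / 4) := by
    have h1 : Tendsto (fun N : ℕ => (N : ℝ) ^ (δ / 4)) atTop atTop :=
      (tendsto_rpow_atTop (by positivity)).comp tendsto_natCast_atTop_atTop
    exact h1.eventually_ge_atTop _
  obtain ⟨N₃, hN₃⟩ := eventually_atTop.1 hev
  refine ⟨N₁ + N₂ + N₃ + ⌈X₀⌉₊ + 1, fun N hN T b β hT hTN hb hbN hlow => ?_⟩
  have hN1 : (1 : ℝ) ≤ N := by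
    have : 1 ≤ N := by omega
    exact_mod_cast this
  have hN0 : (0 : ℝ) < N := by linarith
  have hX : X₀ ≤ (N : ℝ) := (Nat.le_ceil X₀).trans (by
    have : ⌈X₀⌉₊ ≤ N := by omega
    exact_mod_cast this)
  have hmono : ∀ a c : ℝ, a ≤ c → (N : ℝ) ^ a ≤ (N : ℝ) ^ c := fun a c h =>
    Real.rpow_le_rpow_of_exponent_le hN1 h
  have hr3 := hN₃ N (by omega)
  have hr0 : (0 : ℝ) ≤ r := Nat.cast_nonneg r
  set D : Finset ℕ := (Finset.Ioc N (2 * N)).filter P with hD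
  set y : ℕ → Fin r → ℝ := fun n i => (∑ j, (T i j : ℝ) * x n j) / b + β i with hy
  set good : ℕ → Prop := fun n => ∀ i, ∀ q : ℕ, q.Prime → κ * ff N < |(q : ℝ) - y n i| with hgood
  refine ⟨D.filter good, filter_subset _ _, ?_, fun n hn => (mem_filter.1 hn).2⟩
  by_contra hcon
  push Not at hcon
  set s : Finset ℕ := D.filter (fun n => ¬ good n) with hs
  have hcard : (s.card : ℝ) = D.card - (D.filter good).card := by
    have := card_filter_add_card_filter_not (s := D) (p := good)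
    have h2 : (((D.filter good).card + s.card : ℕ) : ℝ) = D.card := by exact_mod_cast this
    push_cast at h2
    linarith
  have hDc := hN₁ N (by omega)
  -- the powers
  have hA : (N : ℝ) ^ (1 - δ / 8) * (N : ℝ) ^ (-(δ / 8)) = (N : ℝ) ^ (1 - δ / 4) := by
    rw [← Real.rpow_add hN0]
    congr 1
    ring
  have hB : (N : ℝ) ^ (1 - ε) ≤ (N : ℝ) ^ (1 - δ) := hmono _ _ (by linarith)
  have hC : 3 * (N : ℝ) ^ (1 - δ) ≤ (N : ℝ) ^ (1 - δ / 4) := by
    have h1 : (N : ℝ) ^ (δ / 4) * (N : ℝ) ^ (1 - δ) ≤ (N : ℝ) ^ (1 - δ / 4) := by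
      rw [← Real.rpow_add hN0]
      exact hmono _ _ (by linarith)
    refine le_trans (mul_le_mul_of_nonneg_right (by linarith) (by positivity)) h1
  have hpos : (0 : ℝ) < (N : ℝ) ^ (1 - δ) := by positivity
  have hE1 : (N : ℝ) ^ (-(δ / 8)) ≤ 1 := by
    have := hmono (-(δ / 8)) 0 (by linarith)
    rwa [Real.rpow_zero] at this
  have hslow : 2 * (N : ℝ) ^ (1 - δ) ≤ s.card * (N : ℝ) ^ (-(δ / 8)) := by
    have h1 : (N : ℝ) ^ (1 - δ / 8) - (N : ℝ) ^ (1 - δ) ≤ s.card := by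
      rw [hcard]
      linarith
    have h2 := mul_le_mul_of_nonneg_right h1 (show 0 ≤ (N : ℝ) ^ (-(δ / 8)) by positivity)
    rw [sub_mul, hA] at h2
    have h3 : (N : ℝ) ^ (1 - δ) * (N : ℝ) ^ (-(δ / 8)) ≤ (N : ℝ) ^ (1 - δ) :=
      mul_le_of_le_one_right hpos.le hE1
    linarith
  have hsne : s.Nonempty := by
    rw [nonempty_iff_ne_empty]
    intro h0
    rw [h0, card_empty, Nat.cast_zero, zero_mul] at hslow
    linarith
  have hres := hX₀ N hX ℕ s y hsne (fun n hn i => by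
      have hn2 := mem_filter.1 (mem_filter.1 hn).1
      have hn3 := Finset.mem_Ioc.1 hn2.1
      exact (hmono _ _ (by linarith)).trans (hlow n hn2.2 hn3.1 hn3.2 i)) (by
    intro q hq hqN h hh hhN
    have hsum : ∑ n ∈ s, e (∑ j, (h j : ℝ) * (y n j / q)) =
        ∑ n ∈ D, e (∑ j, (h j : ℝ) * (y n j / q)) - ∑ n ∈ D.filter good, e (∑ j, (h j : ℝ) * (y n j / q)) := by
      rw [eq_sub_iff_add_eq, add_comm]
      exact sum_filter_add_sum_filter_not _ _ _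
    have hsum2 : ‖∑ n ∈ D.filter good, e (∑ j, (h j : ℝ) * (y n j / q))‖ ≤ (D.filter good).card := by
      refine (norm_sum_le _ _).trans (le_of_eq ?_)
      simp only [norm_e]
      rw [sum_const, nsmul_eq_mul, mul_one]
    have hmain : ‖∑ n ∈ D, e (∑ j, (h j : ℝ) * (y n j / q))‖ ≤ (N : ℝ) ^ (1 - η) := by
      have h1 : ∑ n ∈ D, e (∑ j, (h j : ℝ) * (y n j / q)) =
          (∑ n ∈ D, e (∑ j, ((Matrix.vecMul h T j : ℤ) : ℝ) * (x n j / ((q * b : ℕ) : ℝ)) +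
            ((0 : ℤ) : ℝ) * ((n : ℝ) / ((q * b : ℕ) : ℝ)))) * e (∑ i, (h i : ℝ) * (β i / q)) := by
        rw [sum_mul]
        refine sum_congr rfl fun n _ => ?_
        rw [← e_add, ← phase_eq T b q hb hq β h (x n) 0 n]
      rw [h1, norm_mul, norm_e, mul_one]
      refine hN₂ N (by omega) _ (fun h0 => hh (Matrix.eq_zero_of_vecMul_eq_zero hT h0)) (fun j => ?_) 0
        (by push_cast; rw [abs_zero]; positivity) (q * b) (Nat.one_le_iff_ne_zero.2 (by positivity)) ?_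
      · refine (vec_bound T h (by positivity) hTN hhN j).trans ?_
        rw [← Real.rpow_add hN0]
        have h2 : (r : ℝ) * (N : ℝ) ^ (δ / 8 + δ / 8) ≤ (N : ℝ) ^ (δ / 4) * (N : ℝ) ^ (δ / 8 + δ / 8) :=
          mul_le_mul_of_nonneg_right (by linarith) (by positivity)
        refine h2.trans ?_
        rw [← Real.rpow_add hN0]
        exact hmono _ _ (by linarith)
      · push_cast
        refine (mul_le_mul hqN hbN (Nat.cast_nonneg _) (by positivity)).trans ?_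
        rw [← Real.rpow_add hN0]
        exact hmono _ _ (by linarith)
    rw [hsum]
    refine (norm_sub_le _ _).trans (le_trans ?_ hslow)
    have h3 := hmono (1 - η) (1 - δ) (by linarith)
    linarith)
  obtain ⟨n, hn, hg⟩ := hres
  exact (mem_filter.1 hn).2 hg

end Pool.Agent.N54.MR
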