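import Pool.Agent.N54.MR.Rec
import Pool.Agent.TH915.PW.Disc

set_option autoImplicit false

/-! Record prime gaps around the integers themselves and, at the same time, around the coordinates of the rational
linear images of vectors of real sequences with small exponential sums. -/

namespace Pool.Agent.N54.MR

open Finset Filter
open Pool.Agent.H469R2.NK (e norm_e e_add e_zero)
open Pool.Agent.W147.PS (ff)
open Pool.Agent.Y961.JR (crit_scaled1J)

variable {r : ℕ}

/-- the integers of a class in a block -/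
lemma class_count (A B : ℕ) (hAB : A ≤ B) (q : ℕ) (hq : 1 ≤ q) (b : ℤ) :
    |(((Finset.Ioc A B).filter (fun n : ℕ => (q : ℤ) ∣ (n : ℤ) - b)).card : ℝ) - ((B : ℝ) - A) / q| ≤ 1 := by
  have hq0 : (0 : ℤ) < q := by exact_mod_cast hq
  have h1 : (Finset.Ioc A B).filter (fun n : ℕ => (q : ℤ) ∣ (n : ℤ) - b) =
      (Finset.Ioc A B).filter (fun n : ℕ => n ≡ (b % q).toNat [MOD q]) := by
    refine filter_congr fun n _ => ?_
    rw [← Int.natCast_modEq_iff, Int.toNat_of_nonneg (Int.emod_nonneg _ hq0.ne')]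
    constructor
    · intro h
      have h2 : b ≡ (n : ℤ) [ZMOD q] := (Int.modEq_iff_dvd.2 h)
      exact h2.symm.trans (Int.mod_modEq b q).symm
    · intro h
      exact Int.modEq_iff_dvd.1 (h.trans (Int.mod_modEq b q)).symm
  rw [h1]
  have h2 := Nat.Ioc_filter_modEq_card A B (r := q) (by omega) ((b % q).toNat)
  set v : ℕ := (b % q).toNat with hv
  have hqQ : (0 : ℚ) < q := by exact_mod_cast hq
  have h3 : ⌊((A : ℚ) - v) / q⌋ ≤ ⌊((B : ℚ) - v) / q⌋ := by
    apply Int.floor_le_floor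
    have : (A : ℚ) ≤ B := by exact_mod_cast hAB
    gcongr
  rw [max_eq_left (by linarith)] at h2
  have h4 : ((((Finset.Ioc A B).filter (fun n : ℕ => n ≡ v [MOD q])).card : ℤ) : ℚ) =
      (⌊((B : ℚ) - v) / q⌋ : ℚ) - (⌊((A : ℚ) - v) / q⌋ : ℚ) := by
    rw [h2]
    push_cast
    ring
  have h5 : |(((((Finset.Ioc A B).filter (fun n : ℕ => n ≡ v [MOD q])).card : ℤ) : ℚ)) - ((B : ℚ) - A) / q| ≤ 1 := by
    rw [h4]
    have g1 := Int.floor_le (((B : ℚ) - v) / q)
    have g2 := Int.lt_floor_add_one (((B : ℚ) - v) / q)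
    have g3 := Int.floor_le (((A : ℚ) - v) / q)
    have g4 := Int.lt_floor_add_one (((A : ℚ) - v) / q)
    have g5 : ((B : ℚ) - A) / q = ((B : ℚ) - v) / q - ((A : ℚ) - v) / q := by ring
    rw [g5, abs_le]
    constructor <;> linarith
  have h6 : (((|(((((Finset.Ioc A B).filter (fun n : ℕ => n ≡ v [MOD q])).card : ℤ) : ℚ)) - ((B : ℚ) - A) / q| : ℚ)) : ℝ) ≤ 1 := by
    exact_mod_cast h5
  push_cast at h6
  exact h6

/-- sums over a class from sums with linear phases -/
lemma class_sum (s : Finset ℕ) (q : ℕ) (hq : 1 ≤ q) (b : ℤ) (f : ℕ → ℂ) (V : ℝ)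
    (h : ∀ c ∈ range q, ‖∑ n ∈ s, f n * e ((c : ℝ) * ((n : ℝ) / q))‖ ≤ V) :
    ‖∑ n ∈ s.filter (fun n : ℕ => (q : ℤ) ∣ (n : ℤ) - b), f n‖ ≤ V := by
  have hq0 : (0 : ℝ) < q := by exact_mod_cast hq
  have hqC : (q : ℂ) ≠ 0 := by exact_mod_cast hq0.ne'
  have h1 : ∀ m : ℤ, ∑ c ∈ range q, e ((m : ℝ) * ((c : ℝ) / q)) = if (q : ℤ) ∣ m then (q : ℂ) else 0 := by
    intro m
    split_ifs with hm
    · obtain ⟨t, rfl⟩ := hm
      have : ∀ c ∈ range q, e ((((q : ℤ) * t : ℤ) : ℝ) * ((c : ℝ) / q)) = 1 := by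
        intro c _
        have h2 : (((q : ℤ) * t : ℤ) : ℝ) * ((c : ℝ) / q) = ((t * c : ℤ) : ℝ) := by
          push_cast
          field_simp
        rw [h2, Pool.Agent.TH915.PW.e_int]
      rw [sum_congr rfl this, sum_const, card_range, nsmul_eq_mul, mul_one]
    · exact Pool.Agent.TH915.PW.sum_char q (by omega) m hm
  have h2 : (q : ℂ) * ∑ n ∈ s.filter (fun n : ℕ => (q : ℤ) ∣ (n : ℤ) - b), f n =
      ∑ c ∈ range q, e (-(b : ℝ) * ((c : ℝ) / q)) * ∑ n ∈ s, f n * e ((c : ℝ) * ((n : ℝ) / q)) := by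
    rw [sum_filter, mul_sum]
    simp only [mul_sum]
    rw [sum_comm]
    refine sum_congr rfl fun n _ => ?_
    have h3 := h1 ((n : ℤ) - b)
    calc (q : ℂ) * (if (q : ℤ) ∣ (n : ℤ) - b then f n else 0) =
        (if (q : ℤ) ∣ (n : ℤ) - b then (q : ℂ) else 0) * f n := by
          split_ifs <;> ring
      _ = (∑ c ∈ range q, e ((((n : ℤ) - b : ℤ) : ℝ) * ((c : ℝ) / q))) * f n := by rw [h3]
      _ = _ := by
          rw [sum_mul]
          refine sum_congr rfl fun c _ => ?_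
          have h4 : (((n : ℤ) - b : ℤ) : ℝ) * ((c : ℝ) / q) =
              -(b : ℝ) * ((c : ℝ) / q) + (c : ℝ) * ((n : ℝ) / q) := by
            push_cast
            ring
          rw [h4, e_add]
          ring
  have h3 : (q : ℝ) * ‖∑ n ∈ s.filter (fun n : ℕ => (q : ℤ) ∣ (n : ℤ) - b), f n‖ ≤ q * V := by
    have h4 : ‖(q : ℂ) * ∑ n ∈ s.filter (fun n : ℕ => (q : ℤ) ∣ (n : ℤ) - b), f n‖ ≤ q * V := by
      rw [h2]
      refine (norm_sum_le _ _).trans ?_
      calc ∑ c ∈ range q, ‖e (-(b : ℝ) * ((c : ℝ) / q)) * ∑ n ∈ s, f n * e ((c : ℝ) * ((n : ℝ) / q))‖ ≤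
          ∑ _c ∈ range q, V := by
            refine sum_le_sum fun c hc => ?_
            rw [norm_mul, norm_e, one_mul]
            exact h c hc
        _ = q * V := by rw [sum_const, card_range, nsmul_eq_mul]
    rwa [norm_mul, Complex.norm_natCast] at h4
  exact le_of_mul_le_mul_left h3 hq0

theorem recN_of (hr : 1 ≤ r) (η : ℝ) (hη : 0 < η) (hη1 : η ≤ 1) (ε : ℝ) (hε : 0 < ε) (hε1 : ε ≤ 1) :
    ∃ κ θ : ℝ, 0 < κ ∧ 0 < θ ∧ ∀ x : ℕ → Fin r → ℝ, SmallL η (fun _ => True) x →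
      ∃ N₀ : ℕ, ∀ N : ℕ, N₀ ≤ N → ∀ (a : ℤ) (T : Matrix (Fin r) (Fin r) ℤ) (b : ℕ) (β : Fin r → ℝ),
        (N : ℝ) ^ ε ≤ (N : ℝ) + a →
        T.det ≠ 0 → (∀ i j, |(T i j : ℝ)| ≤ (N : ℝ) ^ θ) → 1 ≤ b → (b : ℝ) ≤ (N : ℝ) ^ θ →
        (∀ n : ℕ, N < n → n ≤ 2 * N → ∀ i, (N : ℝ) ^ ε ≤ (∑ j, (T i j : ℝ) * x n j) / b + β i) →
        ∃ G : Finset ℕ, G ⊆ Finset.Ioc N (2 * N) ∧ (N : ℝ) ^ (1 - ε) ≤ (G.card : ℝ) ∧
          ∀ n ∈ G, (∀ q : ℕ, q.Prime → κ * ff N < |(q : ℝ) - (n + a)|) ∧ ∀ i, ∀ q : ℕ, q.Prime →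
            κ * ff N < |(q : ℝ) - ((∑ j, (T i j : ℝ) * x n j) / b + β i)| := by
  classical
  set δ : ℝ := min η ε with hδ
  have hδ0 : 0 < δ := lt_min hη hε
  have hδη : δ ≤ η := min_le_left _ _
  have hδε : δ ≤ ε := min_le_right _ _
  have hδ1 : δ ≤ 1 := hδε.trans hε1
  obtain ⟨κ, hκ, hcr⟩ := crit_scaled1J r hr (δ / 8) (by positivity) (by linarith)
  obtain ⟨X₀, hX₀⟩ := eventually_atTop.1 hcr
  refine ⟨κ, δ / 8, hκ, by positivity, fun x hx => ?_⟩
  obtain ⟨N₂, hN₂⟩ := hx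
  have hev : ∀ᶠ N : ℕ in atTop, (r : ℝ) + 4 ≤ (N : ℝ) ^ (δ / 4) := by
    have h1 : Tendsto (fun N : ℕ => (N : ℝ) ^ (δ / 4)) atTop atTop :=
      (tendsto_rpow_atTop (by positivity)).comp tendsto_natCast_atTop_atTop
    exact h1.eventually_ge_atTop _
  obtain ⟨N₃, hN₃⟩ := eventually_atTop.1 hev
  refine ⟨N₂ + N₃ + ⌈X₀⌉₊ + 1, fun N hN a T b β ha hT hTN hb hbN hlow => ?_⟩
  have hN1 : (1 : ℝ) ≤ N := by
    have : 1 ≤ N := by omega
    exact_mod_cast this
  have hN0 : (0 : ℝ) < N := by linarith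
  have hX : X₀ ≤ (N : ℝ) := (Nat.le_ceil X₀).trans (by
    have : ⌈X₀⌉₊ ≤ N := by omega
    exact_mod_cast this)
  have hmono : ∀ a c : ℝ, a ≤ c → (N : ℝ) ^ a ≤ (N : ℝ) ^ c := fun a c h =>
    Real.rpow_le_rpow_of_exponent_le hN1 h
  have hr3 := hN₃ N (by omega)
  have hr0 : (0 : ℝ) ≤ r := Nat.cast_nonneg r
  set D : Finset ℕ := Finset.Ioc N (2 * N) with hD
  have hDc : (D.card : ℝ) = N := by
    rw [hD, Nat.card_Ioc]
    congr 1
    omega
  set y : ℕ → Fin r → ℝ := fun n i => (∑ j, (T i j : ℝ) * x n j) / b + β i with hy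
  set good : ℕ → Prop := fun n => (∀ q : ℕ, q.Prime → κ * ff N < |(q : ℝ) - (n + a)|) ∧
    ∀ i, ∀ q : ℕ, q.Prime → κ * ff N < |(q : ℝ) - y n i| with hgood
  refine ⟨D.filter good, filter_subset _ _, ?_, fun n hn => (mem_filter.1 hn).2⟩
  by_contra hcon
  push Not at hcon
  set s : Finset ℕ := D.filter (fun n => ¬ good n) with hs
  have hcard : (s.card : ℝ) = N - (D.filter good).card := by
    have := card_filter_add_card_filter_not (s := D) (p := good)
    have h2 : (((D.filter good).card + s.card : ℕ) : ℝ) = D.card := by exact_mod_cast this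
    push_cast at h2
    linarith
  -- the powers
  have hA : (N : ℝ) * (N : ℝ) ^ (-(δ / 8)) = (N : ℝ) ^ (1 - δ / 8) := by
    nth_rewrite 1 [← Real.rpow_one (N : ℝ)]
    rw [← Real.rpow_add hN0]
    congr 1
  have hB : (N : ℝ) ^ (1 - ε) ≤ (N : ℝ) ^ (1 - δ) := hmono _ _ (by linarith)
  have hC : 4 * (N : ℝ) ^ (1 - δ) ≤ (N : ℝ) ^ (1 - δ / 8) := by
    have h1 : (N : ℝ) ^ (δ / 4) * (N : ℝ) ^ (1 - δ) ≤ (N : ℝ) ^ (1 - δ / 8) := by
      rw [← Real.rpow_add hN0]
      exact hmono _ _ (by linarith)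
    refine le_trans (mul_le_mul_of_nonneg_right (by linarith) (by positivity)) h1
  have hpos : (1 : ℝ) ≤ (N : ℝ) ^ (1 - δ) := Real.one_le_rpow hN1 (by linarith)
  have hE1 : (N : ℝ) ^ (-(δ / 8)) ≤ 1 := by
    have := hmono (-(δ / 8)) 0 (by linarith)
    rwa [Real.rpow_zero] at this
  have hslow : 2 * (N : ℝ) ^ (1 - δ) ≤ s.card * (N : ℝ) ^ (-(δ / 8)) := by
    have h1 : (N : ℝ) - (N : ℝ) ^ (1 - δ) ≤ s.card := by
      rw [hcard]
      linarith
    have h2 := mul_le_mul_of_nonneg_right h1 (show 0 ≤ (N : ℝ) ^ (-(δ / 8)) by positivity)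
    rw [sub_mul, hA] at h2
    have h3 : (N : ℝ) ^ (1 - δ) * (N : ℝ) ^ (-(δ / 8)) ≤ (N : ℝ) ^ (1 - δ) :=
      mul_le_of_le_one_right (by positivity) hE1
    linarith
  have hsne : s.Nonempty := by
    rw [nonempty_iff_ne_empty]
    intro h0
    rw [h0, card_empty, Nat.cast_zero, zero_mul] at hslow
    linarith
  have hGle : ((D.filter good).card : ℝ) ≤ (N : ℝ) ^ (1 - δ) := hcon.le.trans hB
  have hsplit : ∀ (q : ℕ) (c : ℤ), (D.filter (fun n : ℕ => (q : ℤ) ∣ ((n : ℤ) + a) - c)) =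
      D.filter (fun n : ℕ => (q : ℤ) ∣ (n : ℤ) - (c - a)) := by
    intro q c
    refine filter_congr fun n _ => ?_
    rw [show (n : ℤ) + a - c = (n : ℤ) - (c - a) by ring]
  have hres := hX₀ N hX ℕ s (fun n => (n : ℤ) + a) y hsne (fun n hn => by
      have hn3 := Finset.mem_Ioc.1 (mem_filter.1 hn).1
      have h1 : (N : ℝ) ≤ n := by exact_mod_cast hn3.1.le
      push_cast
      exact (hmono _ _ (by linarith)).trans (ha.trans (by linarith)))
    (fun n hn i => by
      have hn3 := Finset.mem_Ioc.1 (mem_filter.1 hn).1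
      exact (hmono _ _ (by linarith)).trans (hlow n hn3.1 hn3.2 i)) (by
    intro q hq hqN c
    have hq0 : (0 : ℝ) < q := by exact_mod_cast hq
    have hcomm : s.filter (fun n : ℕ => (q : ℤ) ∣ ((n : ℤ) + a) - c) =
        (D.filter (fun n : ℕ => (q : ℤ) ∣ (n : ℤ) - (c - a))).filter (fun n => ¬ good n) := by
      rw [hs, filter_filter, ← hsplit q c, filter_filter]
      exact filter_congr fun n _ => and_comm
    set Dc : Finset ℕ := D.filter (fun n : ℕ => (q : ℤ) ∣ (n : ℤ) - (c - a)) with hDc2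
    have hGc : (Dc.filter good).card ≤ (D.filter good).card :=
      card_le_card (filter_subset_filter _ (filter_subset _ _))
    have hGcR : ((Dc.filter good).card : ℝ) ≤ (D.filter good).card := by exact_mod_cast hGc
    refine ⟨?_, fun h hh hhN => ?_⟩
    · rw [hcomm]
      have h1 : (((Dc.filter good).card + (Dc.filter (fun n => ¬ good n)).card : ℕ) : ℝ) = Dc.card := by
        exact_mod_cast card_filter_add_card_filter_not (s := Dc) (p := good)
      push_cast at h1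
      have h2 := class_count N (2 * N) (by omega) q hq (c - a)
      rw [← hD, ← hDc2, show (((2 * N : ℕ) : ℝ) - N) = N by push_cast; ring] at h2
      have h3 : ((Dc.filter (fun n => ¬ good n)).card : ℝ) - s.card / q =
          ((Dc.card : ℝ) - N / q) - ((Dc.filter good).card - (D.filter good).card / q) := by
        rw [hcard]
        have : ((Dc.filter (fun n => ¬ good n)).card : ℝ) = Dc.card - (Dc.filter good).card := by linarith
        rw [this]
        ring
      rw [h3]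
      have h4 : |((Dc.filter good).card : ℝ) - (D.filter good).card / q| ≤ (D.filter good).card := by
        have g1 : (0 : ℝ) ≤ (D.filter good).card / q := by positivity
        have g2 : ((D.filter good).card : ℝ) / q ≤ (D.filter good).card :=
          div_le_self (Nat.cast_nonneg _) (by exact_mod_cast hq)
        rw [abs_le]
        constructor <;> linarith [Nat.cast_nonneg (α := ℝ) (Dc.filter good).card]
      refine (abs_sub _ _).trans ?_
      linarith
    · rw [hcomm]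
      have hsum : ∑ n ∈ Dc.filter (fun n => ¬ good n), e (∑ j, (h j : ℝ) * (y n j / q)) =
          ∑ n ∈ Dc, e (∑ j, (h j : ℝ) * (y n j / q)) - ∑ n ∈ Dc.filter good, e (∑ j, (h j : ℝ) * (y n j / q)) := by
        rw [eq_sub_iff_add_eq, add_comm]
        exact sum_filter_add_sum_filter_not _ _ _
      have hsum2 : ‖∑ n ∈ Dc.filter good, e (∑ j, (h j : ℝ) * (y n j / q))‖ ≤ (D.filter good).card := by
        refine (norm_sum_le _ _).trans ?_
        simp only [norm_e]
        rw [sum_const, nsmul_eq_mul, mul_one]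
        exact hGcR
      have hmain : ‖∑ n ∈ Dc, e (∑ j, (h j : ℝ) * (y n j / q))‖ ≤ (N : ℝ) ^ (1 - η) := by
        refine class_sum D q hq (c - a) _ _ fun k hk => ?_
        have hkq : (k : ℝ) ≤ q := by exact_mod_cast (mem_range.1 hk).le
        have h1 : ∑ n ∈ D, e (∑ j, (h j : ℝ) * (y n j / q)) * e ((k : ℝ) * ((n : ℝ) / q)) =
            (∑ n ∈ D, e (∑ j, ((Matrix.vecMul h T j : ℤ) : ℝ) * (x n j / ((q * b : ℕ) : ℝ)) +
              (((k * b : ℕ) : ℤ) : ℝ) * ((n : ℝ) / ((q * b : ℕ) : ℝ)))) * e (∑ i, (h i : ℝ) * (β i / q)) := by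
          rw [sum_mul]
          refine sum_congr rfl fun n _ => ?_
          have hb0 : (b : ℝ) ≠ 0 := by positivity
          have h5 := phase_eq T b q hb hq β h (x n) 0 n
          rw [← e_add, ← e_add]
          congr 1
          rw [h5]
          push_cast
          field_simp
          ring
        rw [h1, norm_mul, norm_e, mul_one]
        have h6 := hN₂ N (by omega) (Matrix.vecMul h T) (fun h0 => hh (Matrix.eq_zero_of_vecMul_eq_zero hT h0))
          (fun j => ?_) ((k * b : ℕ) : ℤ) ?_ (q * b) (Nat.one_le_iff_ne_zero.2 (by positivity)) ?_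
        · rw [Finset.filter_true] at h6
          exact h6
        · refine (vec_bound T h (by positivity) hTN hhN j).trans ?_
          rw [← Real.rpow_add hN0]
          have h2 : (r : ℝ) * (N : ℝ) ^ (δ / 8 + δ / 8) ≤ (N : ℝ) ^ (δ / 4) * (N : ℝ) ^ (δ / 8 + δ / 8) :=
            mul_le_mul_of_nonneg_right (by linarith) (by positivity)
          refine h2.trans ?_
          rw [← Real.rpow_add hN0]
          exact hmono _ _ (by linarith)
        · push_cast
          rw [abs_of_nonneg (by positivity)]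
          refine (mul_le_mul (hkq.trans hqN) hbN (Nat.cast_nonneg _) (by positivity)).trans ?_
          rw [← Real.rpow_add hN0]
          exact hmono _ _ (by linarith)
        · push_cast
          refine (mul_le_mul hqN hbN (Nat.cast_nonneg _) (by positivity)).trans ?_
          rw [← Real.rpow_add hN0]
          exact hmono _ _ (by linarith)
      rw [hsum]
      refine (norm_sub_le _ _).trans (le_trans ?_ hslow)
      have h3 := hmono (1 - η) (1 - δ) (by linarith)
      linarith)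
  obtain ⟨n, hn, hg1, hg2⟩ := hres
  refine (mem_filter.1 hn).2 ⟨fun q hq => ?_, hg2⟩
  have := hg1 q hq
  push_cast at this
  exact this

end Pool.Agent.N54.MR
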