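import Pool.Agent.N54.ME.Three

set_option autoImplicit false

/-! Almost all members of families of vectors of real sequences have small exponential sums at all
small rational vectors, with an additional linear phase (after `Pool.Agent.N54.ME.Prod`). -/

namespace Pool.Agent.N54.MR

open Finset Filter MeasureTheory
open Pool.Agent.TH668.Met
open Pool.Agent.H469R2.NK (e norm_e e_add conj_e)
open Pool.Agent.N666.TM Pool.Agent.Y722.HS
open Pool.Agent.N54.ME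

variable {r : ℕ}

/-- the exponential sum over the block from `k ^ M` to `2 k ^ M` with a linear phase -/
noncomputable def SL (P : ℕ → Prop) [DecidablePred P] (F : Fin r → ℕ → ℝ → ℝ) (M k : ℕ) (h : Fin r → ℤ) (c : ℤ) (q : ℕ)
    (α : Fin r → ℝ) : ℂ :=
  ∑ n ∈ (Finset.Ioc (k ^ M) (2 * k ^ M)).filter P, e (∑ j, (h j : ℝ) * (F j n (α j) / q) + c * (n / q))

/-- the sums with `0 < h i` are small -/
def GoodL (P : ℕ → Prop) [DecidablePred P] (F : Fin r → ℕ → ℝ → ℝ) (M : ℕ) (i : Fin r) (α : Fin r → ℝ) : Prop :=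
  ∃ k₀ : ℕ, ∀ k : ℕ, k₀ ≤ k → ∀ h : Fin r → ℤ, 0 < h i → (∀ j, |h j| ≤ k) → ∀ c : ℤ, |c| ≤ k →
    ∀ q : ℕ, 1 ≤ q → q ≤ k → ‖SL P F M k h c q α‖ * k ≤ (k : ℝ) ^ M

lemma SL_cont (P : ℕ → Prop) [DecidablePred P] (F : Fin r → ℕ → ℝ → ℝ) (hF : ∀ j n, Continuous (F j n)) (M k : ℕ)
    (h : Fin r → ℤ) (c : ℤ) (q : ℕ) : Continuous (SL P F M k h c q) := by
  unfold SL
  refine continuous_finsetSum _ fun n _ => continuous_e.comp
    ((continuous_finsetSum _ fun j _ => ?_).add continuous_const)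
  exact continuous_const.mul (((hF j n).comp (continuous_apply j)).div_const _)

lemma goodL_meas (P : ℕ → Prop) [DecidablePred P] (F : Fin r → ℕ → ℝ → ℝ) (hF : ∀ j n, Continuous (F j n)) (M : ℕ) (i : Fin r) :
    MeasurableSet {α | GoodL P F M i α} := by
  unfold GoodL
  refine measurableSet_setOf.2 ?_
  refine Measurable.exists fun k₀ => Measurable.forall fun k => Measurable.imp measurable_const ?_
  refine Measurable.forall fun h => Measurable.imp measurable_const ?_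
  refine Measurable.imp measurable_const ?_
  refine Measurable.forall fun c => Measurable.imp measurable_const ?_
  refine Measurable.forall fun q => Measurable.imp measurable_const ?_
  refine Measurable.imp measurable_const ?_
  refine measurableSet_setOf.1 ?_
  exact measurableSet_le (((SL_cont P F hF M k h c q).norm.mul continuous_const).measurable)
    measurable_const

lemma ae_goodL (P : ℕ → Prop) [DecidablePred P] (M : ℕ) (u v : Fin r → ℝ) (huv : ∀ j, u j ≤ v j) (ρ : ℝ) (n₀ : ℕ)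
    (F F' F'' : Fin r → ℕ → ℝ → ℝ) (hF : ∀ j, Fam (u j) (v j) ρ n₀ (F j) (F' j) (F'' j)) (hρ : 0 < ρ)
    (hρ1 : ρ ≤ 1) (hM : 4 * ((r : ℝ) + 7) ≤ ρ * M) (i : Fin r) :
    ∀ᵐ α : Fin r → ℝ, α i ∈ Set.Ioc (u i) (v i) → GoodL P F M i α := by
  have hcont : ∀ j n, Continuous (F j n) := fun j n =>
    continuous_iff_continuousAt.2 fun x => ((hF j).d1 n x).continuousAt
  have hmE : MeasurableSet {α : Fin r → ℝ | α i ∈ Set.Ioc (u i) (v i) ∧ ¬ GoodL P F M i α} := by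
    refine MeasurableSet.inter ?_ (goodL_meas P F hcont M i).compl
    exact (measurable_pi_apply i) measurableSet_Ioc
  rw [ae_iff]
  have hset : {α : Fin r → ℝ | ¬ (α i ∈ Set.Ioc (u i) (v i) → GoodL P F M i α)} =
      {α : Fin r → ℝ | α i ∈ Set.Ioc (u i) (v i) ∧ ¬ GoodL P F M i α} := by
    ext α
    simp only [Set.mem_ofPred_eq, Classical.not_imp]
  rw [hset]
  refine null_of_lines i _ hmE fun α₀ => ?_
  have hl := line P (A := (Fin r → ℤ) × ℤ) M (r + 1) (u i) (v i) ρ (huv i) n₀ (F i) (F' i) (F'' i) (hF i) hρ hρ1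
    (by push_cast; linarith)
    (fun k => ((Fintype.piFinset fun _ : Fin r => Finset.Icc (-(k : ℤ)) k).filter fun h => 0 < h i) ×ˢ
      Finset.Icc (-(k : ℤ)) k)
    (fun k hk => by
      have hkR : (1 : ℝ) ≤ k := by exact_mod_cast hk
      have h1 : (((Fintype.piFinset fun _ : Fin r => Finset.Icc (-(k : ℤ)) k).filter
          fun h => 0 < h i) ×ˢ Finset.Icc (-(k : ℤ)) k).card ≤ (2 * k + 1) ^ (r + 1) := by
        rw [card_product, pow_succ]
        refine Nat.mul_le_mul ((card_filter_le _ _).trans (le_of_eq ?_)) (le_of_eq ?_)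
        · rw [Fintype.card_piFinset, prod_const, Int.card_Icc, card_univ, Fintype.card_fin]
          congr 1
          omega
        · rw [Int.card_Icc]
          omega
      calc ((((Fintype.piFinset fun _ : Fin r => Finset.Icc (-(k : ℤ)) k).filter
          fun h => 0 < h i) ×ˢ Finset.Icc (-(k : ℤ)) k).card : ℝ) ≤ ((2 * k + 1 : ℕ) : ℝ) ^ (r + 1) := by
            exact_mod_cast h1
        _ ≤ (3 * (k : ℝ)) ^ (r + 1) := by
            apply pow_le_pow_left₀ (by positivity)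
            push_cast
            linarith
        _ = _ := mul_pow _ _ _)
    (fun h q => (h.1 i : ℝ) / q) (fun k hk h hh q hq1 hqk => by
      rw [mem_product, mem_filter] at hh
      have h1 : (1 : ℝ) ≤ h.1 i := by exact_mod_cast hh.1.2
      have hq0 : (0 : ℝ) < q := by exact_mod_cast hq1
      have hqk' : (q : ℝ) ≤ k := by exact_mod_cast hqk
      calc 1 / (k : ℝ) ≤ 1 / (q : ℝ) := by gcongr
        _ ≤ _ := by gcongr)
    (fun h q n => ∑ j ∈ univ.erase i, (h.1 j : ℝ) * (F j n (α₀ j) / q) + h.2 * (n / q))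
  rw [ae_restrict_iff' measurableSet_Ioc, ae_iff] at hl
  refine measure_mono_null ?_ hl
  rintro t ⟨ht1, ht2⟩ hcon
  rw [Function.update_self] at ht1
  apply ht2
  obtain ⟨k₀, hk₀⟩ := hcon ht1
  refine ⟨k₀, fun k hk h hi hh c hc q hq1 hqk => ?_⟩
  have h1 := hk₀ k hk (h, c) (by
    rw [mem_product, mem_filter, Fintype.mem_piFinset]
    exact ⟨⟨fun j => Finset.mem_Icc.2 (abs_le.1 (hh j)), hi⟩, Finset.mem_Icc.2 (abs_le.1 hc)⟩) q hq1 hqk
  refine le_trans (le_of_eq ?_) h1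
  unfold SL
  congr 2
  refine sum_congr rfl fun n _ => ?_
  congr 1
  rw [← add_sum_erase _ _ (mem_univ i), Function.update_self, add_assoc]
  congr 1
  · ring
  · congr 1
    refine sum_congr rfl fun j hj => ?_
    rw [Function.update_of_ne (ne_of_mem_erase hj)]

lemma SL_neg (P : ℕ → Prop) [DecidablePred P] (F : Fin r → ℕ → ℝ → ℝ) (M k : ℕ) (h : Fin r → ℤ) (c : ℤ) (q : ℕ) (α : Fin r → ℝ) :
    ‖SL P F M k (-h) (-c) q α‖ = ‖SL P F M k h c q α‖ := by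
  have : SL P F M k (-h) (-c) q α = (starRingEnd ℂ) (SL P F M k h c q α) := by
    unfold SL
    rw [map_sum]
    refine sum_congr rfl fun n _ => ?_
    rw [conj_e]
    congr 1
    rw [neg_add, ← sum_neg_distrib]
    congr 1
    · refine sum_congr rfl fun j _ => ?_
      simp
    · push_cast
      ring
  rw [this, Complex.norm_conj]

lemma ae_allL (P : ℕ → Prop) [DecidablePred P] (M : ℕ) (u v : Fin r → ℝ) (huv : ∀ j, u j ≤ v j) (ρ : ℝ) (n₀ : ℕ)
    (F F' F'' : Fin r → ℕ → ℝ → ℝ) (hF : ∀ j, Fam (u j) (v j) ρ n₀ (F j) (F' j) (F'' j)) (hρ : 0 < ρ)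
    (hρ1 : ρ ≤ 1) (hM : 4 * ((r : ℝ) + 7) ≤ ρ * M) :
    ∀ᵐ α : Fin r → ℝ, (∀ i, α i ∈ Set.Ioc (u i) (v i)) → ∃ k₀ : ℕ, ∀ k : ℕ, k₀ ≤ k → ∀ h : Fin r → ℤ,
      h ≠ 0 → (∀ j, |h j| ≤ k) → ∀ c : ℤ, |c| ≤ k → ∀ q : ℕ, 1 ≤ q → q ≤ k →
        ‖SL P F M k h c q α‖ * k ≤ (k : ℝ) ^ M := by
  have h1 : ∀ᵐ α : Fin r → ℝ, ∀ i, α i ∈ Set.Ioc (u i) (v i) → GoodL P F M i α :=
    ae_all_iff.2 fun i => ae_goodL P M u v huv ρ n₀ F F' F'' hF hρ hρ1 hM i
  filter_upwards [h1] with α hα hu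
  choose k₀ hk₀ using fun i => hα i (hu i)
  refine ⟨∑ i, k₀ i, fun k hk h hh hhk c hc q hq1 hqk => ?_⟩
  obtain ⟨i, hi⟩ := Function.ne_iff.1 hh
  have hki : k₀ i ≤ k := (single_le_sum (f := k₀) (fun _ _ => Nat.zero_le _) (mem_univ i)).trans hk
  rcases lt_or_gt_of_ne hi with h2 | h2
  · rw [← SL_neg]
    refine hk₀ i k hki (-h) ?_ ?_ (-c) (by rwa [abs_neg]) q hq1 hqk
    · rw [Pi.neg_apply]
      have : h i < 0 := h2
      omega
    · intro j
      rw [Pi.neg_apply, abs_neg]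
      exact hhk j
  · exact hk₀ i k hki h h2 hhk c hc q hq1 hqk

/-- bounded exponential sums over the members of `(N, 2 N]` with `P`, with the exponent `η` -/
def SmallL (η : ℝ) (P : ℕ → Prop) [DecidablePred P] (x : ℕ → Fin r → ℝ) : Prop :=
  ∃ N₀ : ℕ, ∀ N : ℕ, N₀ ≤ N → ∀ h : Fin r → ℤ, h ≠ 0 →
    (∀ j, |(h j : ℝ)| ≤ (N : ℝ) ^ η) → ∀ c : ℤ, |(c : ℝ)| ≤ (N : ℝ) ^ η → ∀ q : ℕ, 1 ≤ q → (q : ℝ) ≤ (N : ℝ) ^ η →
    ‖∑ n ∈ (Finset.Ioc N (2 * N)).filter P, e (∑ j, (h j : ℝ) * (x n j / q) + c * (n / q))‖ ≤ (N : ℝ) ^ (1 - η)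

lemma smallL_of (P : ℕ → Prop) [DecidablePred P] (M : ℕ) (hM : 1 ≤ M) (F : Fin r → ℕ → ℝ → ℝ) (α : Fin r → ℝ)
    (h : ∃ k₀ : ℕ, ∀ k : ℕ, k₀ ≤ k → ∀ h : Fin r → ℤ,
      h ≠ 0 → (∀ j, |h j| ≤ k) → ∀ c : ℤ, |c| ≤ k → ∀ q : ℕ, 1 ≤ q → q ≤ k →
        ‖SL P F M k h c q α‖ * k ≤ (k : ℝ) ^ M) :
    SmallL (1 / (2 * M)) P (fun n j => F j n (α j)) := by
  obtain ⟨k₀, hk₀⟩ := h
  have hMR : (1 : ℝ) ≤ M := by exact_mod_cast hM
  have hM0 : (0 : ℝ) < M := by linarith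
  set C : ℝ := 1 + 3 * M * 2 ^ (M - 1) with hC
  have hC0 : 0 < C := by positivity
  have hev : ∀ᶠ N : ℕ in atTop, C + 2 + k₀ ≤ (N : ℝ) ^ (1 / (2 * (M : ℝ))) := by
    have h1 : Tendsto (fun N : ℕ => (N : ℝ) ^ (1 / (2 * (M : ℝ)))) atTop atTop :=
      (tendsto_rpow_atTop (by positivity)).comp tendsto_natCast_atTop_atTop
    exact h1.eventually_ge_atTop _
  obtain ⟨N₁, hN₁⟩ := eventually_atTop.mp hev
  refine ⟨N₁ + 1, fun N hN h hh hhN c hcN q hq1 hqN => ?_⟩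
  have hN1 : 1 ≤ N := by omega
  have hNR : (1 : ℝ) ≤ N := by exact_mod_cast hN1
  have hN0 : (0 : ℝ) < N := by linarith
  set y : ℝ := (N : ℝ) ^ (1 / (2 * (M : ℝ))) with hy
  have hyC : C + 2 + k₀ ≤ y := hN₁ N (by omega)
  have hk00 : (0 : ℝ) ≤ k₀ := Nat.cast_nonneg _
  have hy2 : 2 ≤ y := by linarith
  have hyy : (N : ℝ) ^ (1 / (M : ℝ)) = y * y := by
    rw [hy, ← Real.rpow_add hN0]
    congr 1
    field_simp
    norm_num
  set k : ℕ := ⌊(N : ℝ) ^ (1 / (M : ℝ))⌋₊ with hk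
  have hk1 : (k : ℝ) ≤ (N : ℝ) ^ (1 / (M : ℝ)) := Nat.floor_le (by positivity)
  have hk2 : (N : ℝ) ^ (1 / (M : ℝ)) < k + 1 := Nat.lt_floor_add_one _
  have hky : y ≤ k := by
    rw [hyy] at hk2
    nlinarith
  have hkk : k₀ ≤ k := by
    have : (k₀ : ℝ) ≤ k := by linarith
    exact_mod_cast this
  have hkpos : 1 ≤ k := by
    have : (1 : ℝ) ≤ k := by linarith
    exact_mod_cast this
  have hk0 : (0 : ℝ) < k := by exact_mod_cast hkpos
  have hNM : ((N : ℝ) ^ (1 / (M : ℝ))) ^ M = N := by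
    rw [← Real.rpow_natCast, ← Real.rpow_mul hN0.le, one_div, inv_mul_cancel₀ hM0.ne',
      Real.rpow_one]
  have hkN : k ^ M ≤ N := by
    have : ((k : ℝ)) ^ M ≤ N := by
      rw [← hNM]
      exact pow_le_pow_left₀ hk0.le hk1 M
    exact_mod_cast this
  have hNk : (N : ℝ) ≤ ((k : ℝ) + 1) ^ M := by
    rw [← hNM]
    exact pow_le_pow_left₀ (by positivity) hk2.le M
  -- the frequencies
  have hhk : ∀ i, |h i| ≤ (k : ℤ) := by
    intro i
    have h1 := (hhN i).trans hky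
    have h2 : ((|h i| : ℤ) : ℝ) ≤ ((k : ℤ) : ℝ) := by
      push_cast
      exact h1
    exact_mod_cast h2
  have hck : |c| ≤ (k : ℤ) := by
    have h1 := hcN.trans hky
    have h2 : ((|c| : ℤ) : ℝ) ≤ ((k : ℤ) : ℝ) := by
      push_cast
      exact h1
    exact_mod_cast h2
  have hqk : q ≤ k := by
    have : (q : ℝ) ≤ k := hqN.trans hky
    exact_mod_cast this
  have hS := hk₀ k hkk h hh hhk c hck q hq1 hqk
  unfold SL at hS
  rw [sum_filter] at hS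
  have hint := interp (fun n => if P n then
      e (∑ j, (h j : ℝ) * (F j n (α j) / q) + c * (n / q)) else 0)
    (fun n => by
      by_cases hP : P n
      · simp only [if_pos hP]
        exact (norm_e _).le
      · simp only [if_neg hP, norm_zero]
        norm_num) (k ^ M) N hkN
  rw [sum_filter]
  refine hint.trans ?_
  have h1 : ‖∑ n ∈ Finset.Ioc (k ^ M) (2 * k ^ M), (if P n then
      e (∑ j, (h j : ℝ) * (F j n (α j) / q) + c * (n / q)) else 0)‖ ≤ (k : ℝ) ^ (M - 1) := by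
    have h2 : (k : ℝ) ^ M = (k : ℝ) ^ (M - 1) * k := by
      rw [← pow_succ]
      congr 1
      omega
    rw [h2] at hS
    exact le_of_mul_le_mul_right hS hk0
  have h3 : (N : ℝ) - ((k ^ M : ℕ) : ℝ) ≤ M * (2 ^ (M - 1) * (k : ℝ) ^ (M - 1)) := by
    have h4 := pow_succ_sub M k hM
    have h5 : ((k : ℝ) + 1) ^ (M - 1) ≤ (2 * k) ^ (M - 1) := by
      apply pow_le_pow_left₀ (by positivity)
      have : (1 : ℝ) ≤ k := by exact_mod_cast hkpos
      linarith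
    rw [mul_pow] at h5
    push_cast
    have h6 := mul_le_mul_of_nonneg_left h5 hM0.le
    linarith
  have h7 : (k : ℝ) ^ (M - 1) * y ≤ (N : ℝ) ^ (1 - 1 / (2 * (M : ℝ))) := by
    have h8 : (k : ℝ) ^ (M - 1) ≤ (N : ℝ) ^ ((1 / (M : ℝ)) * (M - 1 : ℕ)) := by
      rw [Real.rpow_mul hN0.le, Real.rpow_natCast]
      exact pow_le_pow_left₀ hk0.le hk1 _
    refine (mul_le_mul_of_nonneg_right h8 (by positivity)).trans (le_of_eq ?_)
    rw [hy, ← Real.rpow_add hN0]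
    congr 1
    rw [Nat.cast_sub hM]
    field_simp
    push_cast
    ring
  have hkp : (0 : ℝ) ≤ (k : ℝ) ^ (M - 1) := by positivity
  calc _ ≤ (k : ℝ) ^ (M - 1) + 3 * (M * (2 ^ (M - 1) * (k : ℝ) ^ (M - 1))) := by
        have h9 := mul_le_mul_of_nonneg_left h3 (show (0 : ℝ) ≤ 3 by norm_num)
        linarith
    _ = (k : ℝ) ^ (M - 1) * C := by rw [hC]; ring
    _ ≤ (k : ℝ) ^ (M - 1) * y := by
        apply mul_le_mul_of_nonneg_left _ hkp
        linarith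
    _ ≤ _ := h7

/-- the exponent -/
noncomputable def eta (ρ : ℝ) (r : ℕ) : ℝ := 1 / (2 * (⌈4 * ((r : ℝ) + 7) / ρ⌉₊ : ℝ))

lemma eta_pos {ρ : ℝ} (hρ : 0 < ρ) (r : ℕ) : 0 < eta ρ r := by
  have h1 : (0 : ℝ) < (⌈4 * ((r : ℝ) + 7) / ρ⌉₊ : ℝ) := by
    have : (0 : ℝ) < 4 * ((r : ℝ) + 7) / ρ := by positivity
    exact_mod_cast Nat.ceil_pos.2 this
  unfold eta
  positivity

lemma eta_le {ρ : ℝ} (hρ : 0 < ρ) (r : ℕ) : eta ρ r ≤ 1 := by
  have h1 : (1 : ℝ) ≤ (⌈4 * ((r : ℝ) + 7) / ρ⌉₊ : ℝ) := by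
    have : (0 : ℝ) < 4 * ((r : ℝ) + 7) / ρ := by positivity
    exact_mod_cast Nat.ceil_pos.2 this
  unfold eta
  rw [div_le_one (by positivity)]
  linarith

theorem spread_small (P : ℕ → Prop) [DecidablePred P] {ρ : ℝ} (hρ : 0 < ρ) (hρ1 : ρ ≤ 1) (u v : Fin r → ℝ)
    (F : Fin r → ℕ → ℝ → ℝ) (hF : ∀ j, Spread ρ (u j) (v j) (F j)) :
    ∀ᵐ α : Fin r → ℝ, (∀ i, α i ∈ Set.Ioc (u i) (v i)) →
      SmallL (eta ρ r) P (fun n i => F i n (α i)) := by
  by_cases huv : ∀ j, u j ≤ v j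
  · choose n₀ hn₀ using fun j => (hF j).fam
    have hfam := fun j => hn₀ j (∑ j, n₀ j)
      (single_le_sum (f := n₀) (fun _ _ => Nat.zero_le _) (mem_univ j))
    set M : ℕ := ⌈4 * ((r : ℝ) + 7) / ρ⌉₊ with hM
    have hMlow : 4 * ((r : ℝ) + 7) / ρ ≤ M := Nat.le_ceil _
    have hMρ : 4 * ((r : ℝ) + 7) ≤ ρ * M := by
      rw [div_le_iff₀ hρ] at hMlow
      linarith
    have hM1 : 1 ≤ M := Nat.ceil_pos.2 (by positivity)
    filter_upwards [ae_allL P M u v huv ρ (∑ j, n₀ j) F _ _ hfam hρ hρ1 hMρ] with α hα hu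
    exact smallL_of P M hM1 F α (hα hu)
  · push Not at huv
    obtain ⟨j, hj⟩ := huv
    refine Eventually.of_forall fun α hα => ?_
    have := hα j
    exact absurd (this.1.trans_le this.2) (not_lt.2 hj.le)

/-- the three kinds of families -/
theorem three_small (P : ℕ → Prop) [DecidablePred P] {ρ : ℝ} (hρ : 0 < ρ) (hρ1 : ρ ≤ 1) (B : (ℕ → Fin r → ℝ) → Prop)
    (hB : ∀ x : ℕ → Fin r → ℝ, SmallL (eta ρ r) P x → B x) :
    (∀ (u v : Fin r → ℝ) (F : Fin r → ℕ → ℝ → ℝ), (∀ j, Spread ρ (u j) (v j) (F j)) →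
      ∀ᵐ α : Fin r → ℝ, (∀ i, α i ∈ Set.Ioc (u i) (v i)) → B (fun n i => F i n (α i))) ∧
    (∀ g c : Fin r → ℕ → ℝ, (∀ i, ∀ᶠ n : ℕ in atTop, (n : ℝ) ^ (ρ - 1) ≤ g i (n + 1) - g i n) →
      ∀ᵐ α : Fin r → ℝ, B (fun n i => α i * g i n + c i n)) ∧
    (∀ (g : Fin r → ℕ → ℕ) (c : Fin r → ℕ → ℝ), (∀ i, StrictMono (g i)) →
      ∀ᵐ α : Fin r → ℝ, (∀ i, 1 < α i) → B (fun n i => α i ^ g i n + c i n)) := by
  refine ⟨fun u v F hF => ?_, fun g c hg => ?_, fun g c hg => ?_⟩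
  · filter_upwards [spread_small P hρ hρ1 u v F hF] with α hα h
    exact hB _ (hα h)
  · have h1 : ∀ᵐ α : Fin r → ℝ, ∀ m : ℕ, (∀ i, α i ∈ Set.Ioc (-(m : ℝ)) m) →
        SmallL (eta ρ r) P (fun n i => α i * g i n + c i n) :=
      ae_all_iff.2 fun m => spread_small P hρ hρ1 (fun _ => -(m : ℝ)) (fun _ => m)
        (fun i n x => x * g i n + c i n) fun i => spread_lin _ _ (g i) (c i) (hg i)
    filter_upwards [h1] with α hα
    refine hB _ ?_
    obtain ⟨m, hm⟩ := exists_nat_gt (∑ i, |α i|)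
    refine hα m fun i => ?_
    have h2 : |α i| ≤ ∑ i, |α i| := single_le_sum (f := fun i => |α i|) (fun _ _ => abs_nonneg _)
      (mem_univ i)
    have h3 := abs_lt.1 (h2.trans_lt hm)
    exact ⟨h3.1, h3.2.le⟩
  · have h1 : ∀ᵐ α : Fin r → ℝ, ∀ m : ℕ, (∀ i, α i ∈ Set.Ioc (1 : ℝ) m) →
        SmallL (eta ρ r) P (fun n i => α i ^ g i n + c i n) :=
      ae_all_iff.2 fun m => spread_small P hρ hρ1 (fun _ => (1 : ℝ)) (fun _ => m)
        (fun i n x => x ^ g i n + c i n) fun i => spread_pow hρ1 _ _ le_rfl (g i) (hg i) (c i)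
    filter_upwards [h1] with α hα h
    refine hB _ ?_
    obtain ⟨m, hm⟩ := exists_nat_gt (∑ i, |α i|)
    refine hα m fun i => ⟨h i, ?_⟩
    have h2 : |α i| ≤ ∑ i, |α i| := single_le_sum (f := fun i => |α i|) (fun _ _ => abs_nonneg _)
      (mem_univ i)
    exact ((le_abs_self _).trans h2).trans hm.le

end Pool.Agent.N54.MR
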